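import Mathlib
import Pool.Agent.H39.FG2

set_option autoImplicit false

namespace Pool.Agent.Results.MP_190226_lc.ConjBorel

open Set MeasureTheory Pool.Agent.H39.FG

theorem result (X : Type) [MeasurableSpace X] [StandardBorelSpace X] (μ : Measure X)
    [IsProbabilityMeasure μ] (T0 : Aut μ) :
    @MeasurableSet _ (borel (FullGroup T0 × FullGroup T0))
      {p | ∃ U : FullGroup T0, p.1 = U * p.2 * U⁻¹} ∧
    ∃ F : ℕ → ℕ → Set (FullGroup T0 × FullGroup T0), (∀ n m, IsClosed (F n m)) ∧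
      {p | ∃ U : FullGroup T0, p.1 = U * p.2 * U⁻¹} = ⋂ n, ⋃ m, F n m := by
  have := sep (T0 := T0)
  obtain ⟨V, hV⟩ := TopologicalSpace.exists_dense_seq (FullGroup T0)
  have h : ∃ F : ℕ → ℕ → Set (FullGroup T0 × FullGroup T0), (∀ n m, IsClosed (F n m)) ∧
      {p | ∃ U : FullGroup T0, p.1 = U * p.2 * U⁻¹} = ⋂ n, ⋃ m, F n m := by
    refine ⟨fun n m => ⋂ k : ℕ, {p | edist ((p.1 ^ k)⁻¹ * V m * p.2 ^ k) (V m) ≤ (n : ENNReal)⁻¹},
      fun n m => isClosed_iInter fun k => isClosed_le (by fun_prop) continuous_const, ?_⟩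
    ext p
    simp only [mem_ofPred_eq, mem_iInter, mem_iUnion, ← conj_iff hV, isConj_iff, eq_comm]
  refine ⟨?_, h⟩
  obtain ⟨F, h1, h2⟩ := h
  borelize (FullGroup T0 × FullGroup T0)
  rw [h2]
  exact MeasurableSet.iInter fun n => MeasurableSet.iUnion fun m => (h1 n m).measurableSet

end Pool.Agent.Results.MP_190226_lc.ConjBorel
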